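import Mathlib
import Pool.Agent.H26.Brachy

set_option autoImplicit false

namespace Pool.Agent.Results.MP_041051_al.NonAdditive

open Pool.Agent.H26.Brachy

/-- There is a brachymorphism between unital non-associative rings that is not additive. -/
theorem result :
    ∃ (R S : Type) (_ : NonAssocRing R) (_ : NonAssocRing S) (f : R → S),
      (∀ a, f (1 + a) = 1 + f a) ∧ (∀ a b, f (a * b) = f a * f b) ∧
        ∃ a b, f (a + b) ≠ f a + f b := by
  refine ⟨Unitization (ZMod 2) A, ZMod 2, inferInstance, inferInstance,
    fun r => r.fst + g r.snd, fun a => ?_, fun a b => ?_, (x : A), (y : A), ?_⟩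
  · simp [add_assoc]
  · simp only [Unitization.fst_mul, Unitization.snd_mul]
    rw [add_comm (a.fst • b.snd), g_mul]
    ring
  · simp [gx, gy, gxy]

end Pool.Agent.Results.MP_041051_al.NonAdditive
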